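import Pool.Agent.H407Z.BPrim

set_option autoImplicit false

namespace Pool.Agent.Results.MP_b6c00a_lc.Decidable

open Pool.Agent.H407Z.BestAction

/-- For every finite nonempty set of players `0, …, m` the set of (Gödel numbers of) formulas of
the modal logic of best action that are valid on finite game trees is decidable. -/
theorem result (m : ℕ) : Function.Injective (Form.code (m := m)) ∧
    ComputablePred (fun n : ℕ => ∃ φ : Form m, φ.code = n ∧ Valid φ) :=
  ⟨code_inj m, (valid_primrec m).computablePred⟩

end Pool.Agent.Results.MP_b6c00a_lc.Decidable
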